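import Pool.Agent.H.MP_ddcbd8_an.E

set_option autoImplicit false

open MeasureTheory Filter Topology Set

namespace Pool.Agent.Results.MP_ddcbd8_an.Yes

/-- The interval `I_β = [0, 1/(β-1)]`. -/
def I (β : ℝ) : Set ℝ := Icc 0 (1 / (β - 1))

/-- The Bernoulli convolution: law of `∑_{k ≥ 1} a_k β^{-k}` for independent fair digits. -/
noncomputable def nu (β : ℝ) : Measure ℝ :=
  (Measure.infinitePi fun _ : ℕ => (PMF.uniformOfFintype Bool).toMeasure).map
    fun a => ∑' k : ℕ, (if a k then 1 else 0) / β ^ (k + 1)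

/-- The densities `f_n`, zero outside `I_β`. -/
noncomputable def f (β : ℝ) : ℕ → ℝ → ℝ
  | 0 => (I β).indicator fun _ => β - 1
  | n + 1 => (I β).indicator fun x => β / 2 * (f β n (β * x) + f β n (β * x - 1))

open Pool.Agent.H.MP_ddcbd8_an in
theorem f_eq {β : ℝ} (h1 : 1 < β) (n : ℕ) :
    f β n = (L β)^[n] ((Icc 0 (1 / (β - 1))).indicator fun _ => β - 1) := by
  induction n with
  | zero => rfl
  | succ n ih =>
    ext x
    rw [Function.iterate_succ_apply', ← ih, f]
    refine indicator_apply_eq_self.2 fun hx => ?_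
    have hz : ∀ y, y ∉ I β → f β n y = 0 := fun y hy => by
      cases n <;> exact indicator_of_notMem hy _
    have b0 : 0 < β - 1 := by linarith
    simp only [I, mem_Icc, not_and_or, not_le, div_lt_iff₀ b0] at hx hz
    rw [hz, hz, add_zero, mul_zero]
    · rcases hx with hx | hx
      · left; nlinarith
      · right; nlinarith
    · rcases hx with hx | hx
      · left; nlinarith
      · right; nlinarith

theorem result :
    (∀ β ∈ Ioo (1:ℝ) 2, (nu β).MutuallySingular volume →
      ∀ᵐ x ∂(volume.restrict (I β)), Tendsto (fun n => f β n x) atTop (𝓝 0)) ∧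
    (∀ β ∈ Ioo (1:ℝ) 2, (nu β).AbsolutelyContinuous volume →
      ∀ᵐ x ∂(volume.restrict (I β)),
        Tendsto (fun n => f β n x) atTop (𝓝 ((nu β).rnDeriv volume x).toReal)) := by
  refine ⟨fun β hβ hs => ae_restrict_of_ae ?_, fun β hβ hs => ae_restrict_of_ae ?_⟩
  · simp only [f_eq hβ.1]
    exact Pool.Agent.H.MP_ddcbd8_an.sing hβ.1 hs
  · simp only [f_eq hβ.1]
    have := Pool.Agent.H.MP_ddcbd8_an.prob hβ.1
    filter_upwards [Pool.Agent.H.MP_ddcbd8_an.leb_ae (h := Pool.Agent.H.MP_ddcbd8_an.dens β)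
      Measure.integrable_toReal_rnDeriv] with x hx
    exact Pool.Agent.H.MP_ddcbd8_an.Hyp.ind ⟨hβ.1, hβ.2, hs, hx⟩

end Pool.Agent.Results.MP_ddcbd8_an.Yes
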